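import Mathlib

/-!
# MP_a92470: hereditary minimum certificates and the complete Pick property

If `s` is a certificate for `k` all of whose restrictions are minimum certificates, then `k` has the
complete Pick property. Two-point subsets suffice.
-/

set_option autoImplicit false

open scoped ComplexConjugate ComplexOrder

namespace Pool.Agent.Results.MP_a92470_an.HereditaryMinimum

/-- A kernel: a positive semidefinite function on `X × X` (in Mathlib's sense of positive
semidefinite matrices with a possibly infinite index set: hermitian, and all finite quadratic sums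
are nonnegative). -/
def IsKernel {X : Type*} (k : X → X → ℂ) : Prop := (Matrix.of k).PosSemidef

/-- `Φ` is a multiplier of `H(s) ⊗ ℂⁿ` of norm at most one, in the standard form: the matrix-valued
function `(I - Φ(x) Φ(y)*) s(x, y)` is positive semidefinite on `X`. -/
def IsContractiveMultiplier {X : Type*} {n : ℕ} (s : X → X → ℂ)
    (Φ : X → Matrix (Fin n) (Fin n) ℂ) : Prop :=
  (Matrix.of fun p q : X × Fin n =>
    (1 - Φ p.1 * (Φ q.1).conjTranspose) p.2 q.2 * s p.1 q.1).PosSemidef

/-- The complete Pick property: if the block matrix `[(I - W_i W_j*) s(x_i, x_j)]` is positive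
semidefinite for distinct points `x_i` and matrices `W_i`, then some multiplier of norm at most one
takes the values `W_i` at the points `x_i`. -/
def IsCP {X : Type*} (s : X → X → ℂ) : Prop :=
  IsKernel s ∧ ∀ (n : ℕ), 1 ≤ n → ∀ (N : ℕ) (x : Fin N → X), Function.Injective x →
    ∀ W : Fin N → Matrix (Fin n) (Fin n) ℂ,
      (Matrix.of fun p q : Fin N × Fin n =>
        (1 - W p.1 * (W q.1).conjTranspose) p.2 q.2 * s (x p.1) (x q.1)).PosSemidef →
      ∃ Φ : X → Matrix (Fin n) (Fin n) ℂ, IsContractiveMultiplier s Φ ∧ ∀ i, Φ (x i) = W i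

/-- `s` is a CP kernel with `k = (1 - h) s` for some kernel `h`. -/
def IsCertificate {X : Type*} (k s : X → X → ℂ) : Prop :=
  IsCP s ∧ ∃ h : X → X → ℂ, IsKernel h ∧ ∀ x y, k x y = (1 - h x y) * s x y

/-- `s` is a minimum certificate for `k`. -/
def IsMinimumCertificate {X : Type*} (k s : X → X → ℂ) : Prop :=
  IsCertificate k s ∧ ∀ s' : X → X → ℂ, IsCertificate k s' → IsKernel fun x y => s' x y / s x y

/-- The restriction of a function on `X × X` to a subset. -/
def restr {X : Type*} (k : X → X → ℂ) (X' : Set X) : X' → X' → ℂ := fun x y => k x y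

lemma psd_dyad {J : Type*} (a : J → ℂ) : (Matrix.of fun i j => a i * conj (a j)).PosSemidef := by
  refine ⟨?_, fun x => ?_⟩
  · ext i j
    simp [Matrix.conjTranspose_apply, mul_comm]
  · have h : (x.sum fun i xi => x.sum fun j xj =>
        star xi * (Matrix.of fun i j => a i * conj (a j)) i j * xj) =
        (x.sum fun i xi => star xi * a i) * star (x.sum fun i xi => star xi * a i) := by
      simp only [Finsupp.sum, star_sum, Finset.sum_mul_sum, Matrix.of_apply]
      refine Finset.sum_congr rfl fun i _ => Finset.sum_congr rfl fun j _ => ?_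
      simp only [star_mul', Complex.star_def, Complex.conj_conj]
      ring
    rw [h]
    exact mul_star_self_nonneg _

lemma psd_scale {J : Type*} {M : J → J → ℂ} (hM : (Matrix.of M).PosSemidef) (a : J → ℂ) :
    (Matrix.of fun i j => a i * conj (a j) * M i j).PosSemidef := by
  have := (psd_dyad a).hadamard hM
  exact this

lemma kernel_diag {X : Type*} {k : X → X → ℂ} (hk : IsKernel k) (x : X) : 0 ≤ k x x :=
  hk.diag_nonneg (i := x)

lemma kernel_symm {X : Type*} {k : X → X → ℂ} (hk : IsKernel k) (x y : X) :
    k y x = conj (k x y) := by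
  have := hk.isHermitian.apply y x
  simpa using this.symm

lemma kernel_cs {X : Type*} {k : X → X → ℂ} (hk : IsKernel k) (x y : X) :
    ‖k x y‖ ^ 2 ≤ (k x x).re * (k y y).re := by
  have h1 : (Matrix.of fun i j : Fin 2 => k (![x, y] i) (![x, y] j)).PosSemidef :=
    hk.submatrix ![x, y]
  have h2 := h1.det_nonneg
  rw [Matrix.det_fin_two] at h2
  simp only [Matrix.of_apply, Matrix.cons_val_zero, Matrix.cons_val_one] at h2
  have hx := kernel_diag hk x
  have hy := kernel_diag hk y
  rw [kernel_symm hk x y, Complex.mul_conj, Complex.normSq_eq_norm_sq] at h2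
  rw [Complex.le_def] at h2 hx hy
  have e1 := h2.1
  have e2 : (k x x).im = 0 := by simpa using hx.2.symm
  have e3 : (k y y).im = 0 := by simpa using hy.2.symm
  simp only [Complex.sub_re, Complex.mul_re, e2, e3, Complex.zero_re, Complex.ofReal_re,
    mul_zero, sub_zero] at e1
  linarith

/-- Every kernel on a set with at most two points has the complete Pick property. -/
lemma cp_two {Y : Type*} {p q : Y} (hY : ∀ y : Y, y = p ∨ y = q) {k : Y → Y → ℂ}
    (hk : IsKernel k) : IsCP k := by
  classical
  refine ⟨hk, ?_⟩
  intro n _ N x hx W hW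
  by_cases hsurj : Function.Surjective x
  · let g : Y → Fin N := Function.surjInv hsurj
    have hg : ∀ y, x (g y) = y := Function.surjInv_eq hsurj
    refine ⟨fun y => W (g y), ?_, fun i => ?_⟩
    · have h1 := hW.submatrix (fun a : Y × Fin n => (g a.1, a.2))
      have h2 : (Matrix.of fun p q : Fin N × Fin n =>
          (1 - W p.1 * (W q.1).conjTranspose) p.2 q.2 * k (x p.1) (x q.1)).submatrix
          (fun a : Y × Fin n => (g a.1, a.2)) (fun a : Y × Fin n => (g a.1, a.2)) =
          Matrix.of fun p q : Y × Fin n =>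
            (1 - W (g p.1) * (W (g q.1)).conjTranspose) p.2 q.2 * k p.1 q.1 := by
        ext a b
        simp only [Matrix.submatrix_apply, Matrix.of_apply, hg]
      rw [h2] at h1
      exact h1
    · show W (g (x i)) = W i
      rw [hx (hg (x i))]
  · by_cases hN : IsEmpty (Fin N)
    · refine ⟨fun _ => 1, ?_, fun i => (hN.false i).elim⟩
      have h1 : (Matrix.of fun p q : Y × Fin n =>
          (1 - (1 : Matrix (Fin n) (Fin n) ℂ) *
            (1 : Matrix (Fin n) (Fin n) ℂ).conjTranspose) p.2 q.2 * k p.1 q.1) = 0 := by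
        ext a b
        simp
      unfold IsContractiveMultiplier
      rw [h1]
      exact Matrix.PosSemidef.zero
    · rw [not_isEmpty_iff] at hN
      obtain ⟨i0⟩ := hN
      have hall : ∀ i, i = i0 := by
        intro i
        by_contra hne
        apply hsurj
        have hxne : x i ≠ x i0 := fun h => hne (hx h)
        intro y
        rcases hY y with h1 | h1 <;> rcases hY (x i) with h2 | h2 <;>
          rcases hY (x i0) with h3 | h3
        all_goals first
          | exact absurd (h2.trans h3.symm) hxne
          | exact ⟨i, h2.trans h1.symm⟩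
          | exact ⟨i0, h3.trans h1.symm⟩
      by_cases h0 : k (x i0) (x i0) = 0
      · have hrow : ∀ y, k (x i0) y = 0 := by
          intro y
          have := kernel_cs hk (x i0) y
          rw [h0, Complex.zero_re, zero_mul] at this
          have h2 : ‖k (x i0) y‖ = 0 := by nlinarith [norm_nonneg (k (x i0) y)]
          exact norm_eq_zero.mp h2
        have hcol : ∀ y, k y (x i0) = 0 := by
          intro y
          rw [kernel_symm hk (x i0) y, hrow y, map_zero]
        refine ⟨fun y => if y = x i0 then W i0 else 1, ?_, fun i => ?_⟩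
        · have h1 : (Matrix.of fun p q : Y × Fin n =>
              (1 - (if p.1 = x i0 then W i0 else 1) *
                (if q.1 = x i0 then W i0 else 1 : Matrix (Fin n) (Fin n) ℂ).conjTranspose) p.2 q.2 *
                k p.1 q.1) = 0 := by
            ext a b
            simp only [Matrix.of_apply, Matrix.zero_apply]
            by_cases ha : a.1 = x i0
            · rw [ha, hrow, mul_zero]
            · by_cases hb : b.1 = x i0
              · rw [hb, hcol, mul_zero]
              · rw [if_neg ha, if_neg hb]
                simp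
          unfold IsContractiveMultiplier
          rw [h1]
          exact Matrix.PosSemidef.zero
        · rw [hall i]
          exact if_pos rfl
      · have hpos : 0 < (k (x i0) (x i0)).re := by
          have := kernel_diag hk (x i0)
          rw [Complex.le_def] at this
          rcases lt_or_eq_of_le this.1 with h | h
          · exact h
          · exfalso
            apply h0
            apply Complex.ext
            · exact h.symm
            · exact this.2.symm
        have hreal : k (x i0) (x i0) = ((k (x i0) (x i0)).re : ℂ) := by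
          have := kernel_diag hk (x i0)
          rw [Complex.le_def] at this
          apply Complex.ext
          · simp
          · simpa using this.2.symm
        have hWW : (Matrix.of fun a b : Fin n =>
            (1 - W i0 * (W i0).conjTranspose) a b).PosSemidef := by
          have h1 := hW.submatrix (fun a : Fin n => (i0, a))
          have h2 := h1.smul (a := ((k (x i0) (x i0)).re)⁻¹) (by positivity)
          convert h2 using 1
          ext a b
          simp only [Matrix.smul_apply, Matrix.submatrix_apply, Matrix.of_apply]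
          rw [hreal]
          simp only [Complex.ofReal_re, Complex.real_smul]
          rw [mul_comm _ ((((k (x i0) (x i0)).re : ℝ)) : ℂ), ← mul_assoc, ← Complex.ofReal_mul,
            inv_mul_cancel₀ hpos.ne', Complex.ofReal_one, one_mul]
        refine ⟨fun _ => W i0, ?_, fun i => by rw [hall i]⟩
        have h1 := (hWW.submatrix (fun a : Y × Fin n => a.2)).hadamard
          (hk.submatrix (fun a : Y × Fin n => a.1))
        exact h1

/-- If `k = δ δ̄ s` with `s` CP, then `k` is CP (`δ` may have zeros). -/
lemma cp_of_dyad {X : Type*} {k s : X → X → ℂ} (hs : IsCP s) (δ : X → ℂ)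
    (hk : ∀ x y, k x y = δ x * conj (δ y) * s x y) : IsCP k := by
  classical
  have hkeq : k = fun x y => δ x * conj (δ y) * s x y := by
    funext x y; exact hk x y
  refine ⟨by rw [hkeq]; exact psd_scale hs.1 δ, ?_⟩
  intro n hn N x hx W hW
  -- the indices where `δ` does not vanish
  let I := {i : Fin N // δ (x i) ≠ 0}
  let e : Fin (Fintype.card I) ≃ I := (Fintype.equivFin I).symm
  have h1 := hW.submatrix (fun a : Fin (Fintype.card I) × Fin n => ((e a.1 : Fin N), a.2))
  have h2 := psd_scale (M := fun a b : Fin (Fintype.card I) × Fin n =>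
    (Matrix.of fun p q : Fin N × Fin n =>
      (1 - W p.1 * (W q.1).conjTranspose) p.2 q.2 * k (x p.1) (x q.1))
      ((e a.1 : Fin N), a.2) ((e b.1 : Fin N), b.2)) h1
    (fun a => (δ (x (e a.1)))⁻¹)
  have h3 : (Matrix.of fun p q : Fin (Fintype.card I) × Fin n =>
      (1 - W (e p.1) * (W (e q.1)).conjTranspose) p.2 q.2 *
        s (x (e p.1)) (x (e q.1))).PosSemidef := by
    convert h2 using 1
    ext a b
    simp only [Matrix.of_apply, hk, map_inv₀]
    have ha : δ (x (e a.1)) ≠ 0 := (e a.1).2
    have hb : conj (δ (x (e b.1))) ≠ 0 := by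
      intro h
      apply (e b.1).2
      have := congrArg conj h
      simpa using this
    field_simp
  obtain ⟨Φ, hΦ1, hΦ2⟩ := hs.2 n hn (Fintype.card I) (fun j => x (e j)) (by
    intro i j hij
    exact e.injective (Subtype.ext (hx hij))) (fun j => W (e j)) h3
  refine ⟨fun y => if h : ∃ i, x i = y ∧ δ y = 0 then W h.choose else Φ y, ?_, ?_⟩
  · have h4 := psd_scale (M := fun p q : X × Fin n =>
      (1 - Φ p.1 * (Φ q.1).conjTranspose) p.2 q.2 * s p.1 q.1) hΦ1 (fun a => δ a.1)
    unfold IsContractiveMultiplier
    convert h4 using 1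
    ext a b
    simp only [Matrix.of_apply, hk]
    by_cases ha : δ a.1 = 0
    · rw [ha]; simp
    · by_cases hb : δ b.1 = 0
      · rw [hb]; simp
      · have ha' : ¬ ∃ i, x i = a.1 ∧ δ a.1 = 0 := fun h => ha h.choose_spec.2
        have hb' : ¬ ∃ i, x i = b.1 ∧ δ b.1 = 0 := fun h => hb h.choose_spec.2
        rw [dif_neg ha', dif_neg hb']
        ring
  · intro i
    by_cases hi : δ (x i) = 0
    · have hex : ∃ j, x j = x i ∧ δ (x i) = 0 := ⟨i, rfl, hi⟩
      show (if h : ∃ j, x j = x i ∧ δ (x i) = 0 then W h.choose else Φ (x i)) = W i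
      rw [dif_pos hex, hx hex.choose_spec.1]
    · have hex : ¬ ∃ j, x j = x i ∧ δ (x i) = 0 := fun h => hi h.choose_spec.2
      show (if h : ∃ j, x j = x i ∧ δ (x i) = 0 then W h.choose else Φ (x i)) = W i
      rw [dif_neg hex]
      have := hΦ2 (e.symm ⟨i, hi⟩)
      simpa using this

/-- The equality case of the reverse Cauchy-Schwarz inequality. -/
lemma equality_case {a b : ℝ} {c : ℂ} (ha0 : 0 ≤ a) (hb0 : 0 ≤ b) (ha1 : a ≤ 1) (hb1 : b ≤ 1)
    (h1 : ‖c‖ ^ 2 ≤ a * b) (h2 : ‖1 - c‖ ^ 2 ≤ (1 - a) * (1 - b)) : c = a ∧ a = b := by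
  have e1 : ‖c‖ ^ 2 = c.re ^ 2 + c.im ^ 2 := by
    rw [← Complex.normSq_eq_norm_sq, Complex.normSq_apply]; ring
  have e2 : ‖1 - c‖ ^ 2 = (1 - c.re) ^ 2 + c.im ^ 2 := by
    rw [← Complex.normSq_eq_norm_sq, Complex.normSq_apply]
    simp only [Complex.sub_re, Complex.one_re, Complex.sub_im, Complex.one_im]
    ring
  rw [e1] at h1
  rw [e2] at h2
  set u := c.re with hu
  set v := c.im with hv
  set g := Real.sqrt (a * b) with hg
  have hg0 : 0 ≤ g := Real.sqrt_nonneg _
  have hg2 : g ^ 2 = a * b := Real.sq_sqrt (mul_nonneg ha0 hb0)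
  have hg1 : g ≤ 1 := by
    rw [hg, Real.sqrt_le_iff]
    exact ⟨zero_le_one, by nlinarith⟩
  have hug : u ≤ g := by
    have : u ^ 2 ≤ g ^ 2 := by nlinarith [sq_nonneg v]
    exact (abs_le_of_sq_le_sq' this hg0).2
  have h3 : (1 - g) ^ 2 ≤ (1 - u) ^ 2 := pow_le_pow_left₀ (by linarith) (by linarith) 2
  have h4 : a + b ≤ 2 * g := by nlinarith [sq_nonneg v]
  have h5 : (a - b) ^ 2 ≤ 0 := by nlinarith
  have h6 : a = b := by nlinarith [sq_nonneg (a - b)]
  subst h6
  have h7 : g = a := by
    rw [hg]
    exact Real.sqrt_mul_self ha0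
  rw [h7] at hug h3
  have h8 : v ^ 2 ≤ 0 := by nlinarith
  have h9 : v = 0 := by nlinarith [sq_nonneg v]
  have h10 : a ≤ u := by
    rw [h9] at h2
    have : (1 - u) ^ 2 ≤ (1 - a) ^ 2 := by nlinarith
    have := (abs_le_of_sq_le_sq' this (by linarith)).2
    linarith
  refine ⟨Complex.ext ?_ ?_, rfl⟩
  · rw [← hu]
    simp only [Complex.ofReal_re]
    linarith
  · rw [← hv]
    simp [h9]

/-- **Positive answer to Q1 of MP_a92470.** Let `k` be a kernel on `X` and `s` a certificate for `k`
such that `s` restricted to `X'` is a minimum certificate for `k` restricted to `X'`, for every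
nonempty subset `X'` on which `s` has no zeros. Then `k` is CP, and `k` equals `s` up to a dyad. -/
theorem result {X : Type*} (k s : X → X → ℂ) (hk : IsKernel k) (hs : IsCertificate k s)
    (hmin : ∀ X' : Set X, X'.Nonempty → (∀ x ∈ X', ∀ y ∈ X', s x y ≠ 0) →
      IsMinimumCertificate (restr k X') (restr s X')) :
    IsCP k ∧ ∃ δ : X → ℂ, ∀ x y, k x y = δ x * conj (δ y) * s x y := by
  classical
  obtain ⟨hsCP, h, hh, hks⟩ := hs
  have hsK := hsCP.1
  -- the diagonal of `h`
  have hhre : ∀ x, h x x = ((h x x).re : ℂ) := by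
    intro x
    have := kernel_diag hh x
    rw [Complex.le_def] at this
    apply Complex.ext
    · simp
    · simpa using this.2.symm
  have hh0 : ∀ x, 0 ≤ (h x x).re := by
    intro x
    have := kernel_diag hh x
    rw [Complex.le_def] at this
    exact this.1
  have hh1 : ∀ x, s x x ≠ 0 → (h x x).re ≤ 1 := by
    intro x hx
    have h1 := kernel_diag hk x
    have h2 := kernel_diag hsK x
    rw [Complex.le_def] at h1 h2
    have h3 : 0 < (s x x).re := by
      rcases lt_or_eq_of_le h2.1 with h4 | h4
      · exact h4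
      · exfalso
        apply hx
        apply Complex.ext
        · exact h4.symm
        · exact h2.2.symm
    have h5 : (k x x).re = (1 - (h x x).re) * (s x x).re := by
      rw [hks, hhre x]
      simp
    have h6 := h1.1
    rw [h5, Complex.zero_re] at h6
    by_contra hcon
    push Not at hcon
    nlinarith
  -- the key step
  have key : ∀ x y, s x y ≠ 0 → h x y = (h x x).re ∧ (h x x).re = (h y y).re := by
    intro x y hxy
    have hxx : s x x ≠ 0 := by
      intro h0
      have := kernel_cs hsK x y
      rw [h0, Complex.zero_re, zero_mul] at this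
      apply hxy
      have h2 : ‖s x y‖ = 0 := by nlinarith [norm_nonneg (s x y)]
      exact norm_eq_zero.mp h2
    have hyy : s y y ≠ 0 := by
      intro h0
      have := kernel_cs hsK x y
      rw [h0, Complex.zero_re, mul_zero] at this
      apply hxy
      have h2 : ‖s x y‖ = 0 := by nlinarith [norm_nonneg (s x y)]
      exact norm_eq_zero.mp h2
    have hyx : s y x ≠ 0 := by
      rw [kernel_symm hsK x y]
      intro h0
      apply hxy
      have := congrArg conj h0
      simpa using this
    let X' : Set X := {x, y}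
    have hm := hmin X' ⟨x, Or.inl rfl⟩ (by
      rintro a (rfl | rfl) b (rfl | rfl) <;> assumption)
    have hkr : IsKernel (restr k X') := hk.submatrix (fun a : X' => (a : X))
    have hcp : IsCP (restr k X') := by
      apply cp_two (p := (⟨x, Or.inl rfl⟩ : X')) (q := (⟨y, Or.inr rfl⟩ : X')) _ hkr
      rintro ⟨a, rfl | rfl⟩
      · left; rfl
      · right; rfl
    have hcert : IsCertificate (restr k X') (restr k X') := by
      refine ⟨hcp, fun _ _ => 0, ?_, fun a b => by simp⟩
      exact Matrix.PosSemidef.zero
    have hq := hm.2 _ hcert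
    have hcs := kernel_cs hq (⟨x, Or.inl rfl⟩ : X') (⟨y, Or.inr rfl⟩ : X')
    have e1 : restr k X' ⟨x, Or.inl rfl⟩ ⟨y, Or.inr rfl⟩ / restr s X' ⟨x, Or.inl rfl⟩ ⟨y, Or.inr rfl⟩ =
        1 - h x y := by
      show k x y / s x y = _
      rw [hks, mul_div_cancel_right₀ _ hxy]
    have e2 : restr k X' ⟨x, Or.inl rfl⟩ ⟨x, Or.inl rfl⟩ / restr s X' ⟨x, Or.inl rfl⟩ ⟨x, Or.inl rfl⟩ =
        1 - h x x := by
      show k x x / s x x = _
      rw [hks, mul_div_cancel_right₀ _ hxx]
    have e3 : restr k X' ⟨y, Or.inr rfl⟩ ⟨y, Or.inr rfl⟩ / restr s X' ⟨y, Or.inr rfl⟩ ⟨y, Or.inr rfl⟩ =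
        1 - h y y := by
      show k y y / s y y = _
      rw [hks, mul_div_cancel_right₀ _ hyy]
    rw [e1, e2, e3] at hcs
    have hcs2 := kernel_cs hh x y
    simp only [Complex.sub_re, Complex.one_re] at hcs
    exact equality_case (hh0 x) (hh0 y) (hh1 x hxx) (hh1 y hyy) hcs2 hcs
  have hdy : ∀ x y, k x y = ((Real.sqrt (1 - (h x x).re) : ℝ) : ℂ) *
      conj (((Real.sqrt (1 - (h y y).re) : ℝ) : ℂ)) * s x y := by
    intro x y
    by_cases hxy : s x y = 0
    · rw [hks, hxy, mul_zero, mul_zero]
    · obtain ⟨h1, h2⟩ := key x y hxy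
      have hxx : s x x ≠ 0 := by
        intro h0
        have := kernel_cs hsK x y
        rw [h0, Complex.zero_re, zero_mul] at this
        apply hxy
        have h2 : ‖s x y‖ = 0 := by nlinarith [norm_nonneg (s x y)]
        exact norm_eq_zero.mp h2
      rw [hks, h1, ← h2, Complex.conj_ofReal, ← Complex.ofReal_mul,
        Real.mul_self_sqrt (by linarith [hh1 x hxx])]
      push_cast
      ring
  exact ⟨cp_of_dyad hsCP _ hdy, _, hdy⟩

end Pool.Agent.Results.MP_a92470_an.HereditaryMinimum
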